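import Mathlib
import Pool.Agent.W758.AHC.Stm

set_option autoImplicit false

/-! Project AHC: the conditions (R3) and (R4). -/

namespace Pool.Agent.W311.AHC

open Pool.Agent.W758.AHC

variable {ι : Type}

lemma ind_nonneg [DecidableEq ι] (a : Finset ι) (x : ι) : 0 ≤ ind a x := by
  unfold ind; split_ifs <;> norm_num

lemma ind_pos_iff [DecidableEq ι] {a : Finset ι} {x : ι} (h : 0 < ind a x) : x ∈ a := by
  unfold ind at h
  by_contra hx
  rw [if_neg hx] at h
  exact lt_irrefl _ h

lemma exists_mem [DecidableEq ι] {A : Finset (Finset ι)} (hA : Half A) (x : ι) : ∃ a ∈ A, x ∈ a := by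
  have h := hA x
  have : 0 < (A.filter (fun a => x ∈ a)).card := by omega
  obtain ⟨a, ha⟩ := Finset.card_pos.1 this
  rw [Finset.mem_filter] at ha
  exact ⟨a, ha.1, ha.2⟩

lemma filter_eq [DecidableEq ι] {S : Finset ι} {p : ι → Prop} [DecidablePred p] {x : ι}
    (hx : x ∈ S) (hp : p x) (h : (S.filter p).card < 2) : ∀ y ∈ S, p y → y = x := by
  intro y hy hpy
  have h1 : (S.filter p).card ≤ 1 := by omega
  exact Finset.card_le_one.1 h1 y (Finset.mem_filter.2 ⟨hy, hpy⟩) x (Finset.mem_filter.2 ⟨hx, hp⟩)

lemma sum_single [DecidableEq ι] {S : Finset ι} {f : ι → ℚ} {x : ι} (b : Finset ι)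
    (h : ∀ y ∈ S, f y ≠ 0 → y = x) (hx : x ∈ S) :
    ∑ y ∈ b ∩ S, f y = if x ∈ b then f x else 0 := by
  split_ifs with hb
  · apply Finset.sum_eq_single x
    · intro y hy hyx
      by_contra hne
      exact hyx (h y (Finset.mem_inter.1 hy).2 hne)
    · intro hn
      exact absurd (Finset.mem_inter.2 ⟨hb, hx⟩) hn
  · apply Finset.sum_eq_zero
    intro y hy
    by_contra hne
    have := h y (Finset.mem_inter.1 hy).2 hne
    rw [this] at hy
    exact hb (Finset.mem_inter.1 hy).1

/-- Part R34. -/
theorem r34 : S_R34 := by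
  intro ι _ _ l A B I v c hAne hBne hL hA hB
  constructor
  · intro i hi
    by_contra hcon
    push Not at hcon
    -- the column is a singleton
    have key : ∀ j ∈ Iᶜ, 0 ≤ c i j := by
      intro j hj
      by_contra hneg
      push Not at hneg
      have hne : c i j ≠ 0 := hneg.ne
      have hcard := hcon j hj hne
      have huniq := filter_eq (p := fun i' => c i' j ≠ 0) hi hne hcard
      have hsum : ∀ a : Finset ι, ∑ i' ∈ a ∩ I, c i' j = if i ∈ a then c i j else 0 := fun a =>
        sum_single (f := fun i' => c i' j) a huniq hi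
      obtain ⟨⟨a1, ha1, hi1⟩, ⟨a2, ha2, hi2⟩⟩ := hL.h4 i hi
      have e1 := hL.h1 a1 ha1 j hj
      have e2 := hL.h1 a2 ha2 j hj
      rw [hsum, if_pos hi1] at e1
      rw [hsum, if_neg hi2, add_zero] at e2
      -- v j = 1, c = -1
      have hv : v j = 1 ∧ c i j = -1 := by
        unfold ind at e1 e2
        split_ifs at e1 e2 <;> first | (exfalso; linarith) | (constructor <;> linarith)
      have hiff : ∀ a ∈ A, (j ∈ a ↔ i ∉ a) := by
        intro a ha
        have e := hL.h1 a ha j hj
        rw [hsum, hv.1, hv.2] at e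
        unfold ind at e
        by_cases h1 : i ∈ a <;> by_cases h2 : j ∈ a <;> simp [h1, h2] at e ⊢
      have h1 := hA i
      have h2 := hA j
      have h3 : (A.filter (fun a => j ∈ a)).card + (A.filter (fun a => i ∈ a)).card = A.card := by
        have : A.filter (fun a => j ∈ a) = A.filter (fun a => ¬ i ∈ a) :=
          Finset.filter_congr fun a ha => hiff a ha
        rw [this, add_comm]
        exact Finset.card_filter_add_card_filter_not _
      omega
    obtain ⟨b, hb, hib⟩ := exists_mem hB i
    have e := hL.h2 b hb i hi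
    have : 0 ≤ ∑ j ∈ b ∩ Iᶜ, c i j := Finset.sum_nonneg fun j hj => key j (Finset.mem_inter.1 hj).2
    unfold ind at e
    rw [if_pos hib] at e
    linarith
  · intro j hj hvj
    by_contra hcon
    push Not at hcon
    obtain ⟨b, hb, hjb⟩ := exists_mem hB j
    have key : ∀ i ∈ I, c i j ≤ 0 := by
      intro i hi
      by_contra hpos
      push Not at hpos
      have hne : c i j ≠ 0 := hpos.ne'
      have hcard := hcon i hi hne
      have huniq := filter_eq (p := fun j' => c i j' ≠ 0) hj hne hcard
      have e := hL.h2 b hb i hi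
      rw [sum_single (f := fun j' => c i j') b huniq hj, if_pos hjb] at e
      have := ind_nonneg b i
      linarith
    obtain ⟨a, ha, hja⟩ := exists_mem hA j
    have e := hL.h1 a ha j hj
    have : ∑ i ∈ a ∩ I, c i j ≤ 0 := Finset.sum_nonpos fun i hi => key i (Finset.mem_inter.1 hi).2
    unfold ind at e
    rw [if_pos hja, hvj] at e
    linarith

end Pool.Agent.W311.AHC
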